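import Mathlib
import Pool.Agent.Helper78.EC.Tow
import Pool.Agent.Helper78.EC.Logs

/-!
# Gel'fond's conjecture over generic fields

Let `EL` be the smallest algebraically closed field of complex numbers which is closed under
exponentials and logarithms.  For all `t` in `ℂᵐ` outside of a set of Hausdorff dimension exactly
`2 m - 2` (a countable set for `m = 1`) we show that the exponentials `e^{x_i}` of elements algebraic over
`EL(t)` and the logarithms `l_j` of elements algebraic over `EL(t)` are jointly algebraically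
independent over `EL(t)` as soon as the `x_i` and the `l_j` are linearly independent over `ℚ` modulo
`EL`.  It follows that the theorem of Lindemann and Weierstrass holds over `ℚ(t)`, and that Gel'fond's
conjecture over `ℚ(t)` is equivalent to Gel'fond's conjecture.
-/

set_option autoImplicit false

namespace Pool.Agent.Results.MP_c82530_nt.GenericFields

open Module Set Pool.Agent.Helper78.SC Pool.Agent.Helper78.EC Pool.Agent.Helper78.EC.Tow
open Pool.Agent.W252 Pool.Agent.W669.Gel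
open scoped ENNReal

/-- The algebraic numbers, a vector space over `ℚ`. -/
def Alg : Submodule ℚ ℂ where
  carrier := {x | IsAlgebraic ℚ x}
  add_mem' := fun ha hb => IsAlgebraic.add ha hb
  zero_mem' := isAlgebraic_zero
  smul_mem' := by
    intro q l hl
    rw [mem_ofPred_eq, Rat.smul_def]
    exact (isAlgebraic_algebraMap (R := ℚ) (A := ℂ) q).mul hl

/-- The logarithms of the nonzero algebraic numbers, a vector space over `ℚ`. -/
def Logs : Submodule ℚ ℂ where
  carrier := {l | IsAlgebraic ℚ (Complex.exp l)}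
  add_mem' := by
    intro a b ha hb
    rw [mem_ofPred_eq, Complex.exp_add]
    exact IsAlgebraic.mul ha hb
  zero_mem' := by
    rw [mem_ofPred_eq, Complex.exp_zero]
    exact isAlgebraic_one
  smul_mem' := by
    intro q l hl
    rw [mem_ofPred_eq, Rat.smul_def]
    exact Use.exp_rat hl q

/-- The field `ℚ(t_1, …, t_m)`. -/
noncomputable abbrev Fld {m : ℕ} (t : Fin m → ℂ) : IntermediateField ℚ ℂ :=
  IntermediateField.adjoin ℚ (range t)

/-- The field `EL(t_1, …, t_m)`. -/
noncomputable abbrev FldEL {m : ℕ} (t : Fin m → ℂ) : IntermediateField ℚ ℂ :=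
  IntermediateField.adjoin ℚ ((EL : Set ℂ) ∪ range t)

/-- The numbers `e^{x_i}` and `l_j`. -/
noncomputable def numbers {a b : ℕ} (x : Fin a → ℂ) (l : Fin b → ℂ) : Fin a ⊕ Fin b → ℂ :=
  Sum.elim (fun i => Complex.exp (x i)) l

/-- The point `t` is good, if `t_1, …, t_m` are algebraically independent over `EL`, and if, for any
numbers `x_i` algebraic over `EL(t)` and linearly independent over `ℚ` modulo `EL`, and any logarithms
`l_j` of numbers algebraic over `EL(t)`, linearly independent over `ℚ` modulo `EL`, the numbers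
`e^{x_i}` and `l_j` are algebraically independent over `EL(t)`. -/
def Good {m : ℕ} (t : Fin m → ℂ) : Prop :=
  AlgebraicIndependent EL t ∧
  ∀ (a b : ℕ) (x : Fin a → ℂ) (l : Fin b → ℂ), (∀ i, IsAlgebraic (FldEL t) (x i)) →
    (∀ j, IsAlgebraic (FldEL t) (Complex.exp (l j))) →
    (∀ q : Fin a → ℚ, ∑ i, (q i : ℂ) * x i ∈ EL → q = 0) →
    (∀ q : Fin b → ℚ, ∑ j, (q j : ℂ) * l j ∈ EL → q = 0) →
    AlgebraicIndependent (FldEL t) (numbers x l)

/-- Gel'fond's conjecture for at most `a` exponentials and at most `b` logarithms. -/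
def Gelfond (a b : ℕ) : Prop :=
  ∀ n ≤ a, ∀ k ≤ b, ∀ (x : Fin n → ℂ) (l : Fin k → ℂ), (∀ i, x i ∈ Alg) → (∀ j, l j ∈ Logs) →
    LinearIndependent ℚ x → LinearIndependent ℚ l → AlgebraicIndependent ℚ (numbers x l)

/-- Gel'fond's conjecture over the field `ℚ(t)` for all families such that the span of the exponents
contains at most `a` independent algebraic numbers and the span of the logarithms contains at most `b`
independent logarithms of algebraic numbers. -/
def GelfondOver {m : ℕ} (t : Fin m → ℂ) (a b : ℕ) : Prop :=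
  ∀ (n k : ℕ) (x : Fin n → ℂ) (l : Fin k → ℂ), (∀ i, IsAlgebraic (Fld t) (x i)) →
    (∀ j, IsAlgebraic (Fld t) (Complex.exp (l j))) → LinearIndependent ℚ x → LinearIndependent ℚ l →
    finrank ℚ ↥(Submodule.span ℚ (range x) ⊓ Alg) ≤ a →
    finrank ℚ ↥(Submodule.span ℚ (range l) ⊓ Logs) ≤ b → AlgebraicIndependent (Fld t) (numbers x l)

/-! ### the good points -/

theorem EL_le_ecl : EL ≤ Closure.ecl ⊥ := EL_le (closed_ecl ⊥)

theorem alg_EL {x : ℂ} (hx : IsAlgebraic ℚ x) : x ∈ EL := closed_EL.2.2 x (hx.tower_top _)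

theorem logs_EL {x : ℂ} (hx : IsAlgebraic ℚ (Complex.exp x)) : x ∈ EL := closed_EL.2.1 x (alg_EL hx)

/-- one number which is the logarithm of an element of the closure of `EL(t)` -/
theorem log_not_alg {m : ℕ} {t : Fin m → ℂ} (ht : Generic.Gen ⊥ t) {l : ℂ}
    (h1 : IsAlgebraic (FldEL t) l) (h2 : IsAlgebraic (FldEL t) (Complex.exp l)) : l ∈ EL := by
  by_contra hcon
  have hz : ∀ q : Fin 1 → ℚ, ∑ i, (q i : ℂ) * (fun _ : Fin 1 => l) i ∈ EL → q = 0 := by
    intro q hq
    rw [Fin.sum_univ_one] at hq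
    by_contra h0
    have h3 : q 0 ≠ 0 := fun h => h0 (funext fun i => by rw [Subsingleton.elim i 0, h]; rfl)
    apply hcon
    have h4 := EL.mul_mem (EL.algebraMap_mem (q 0)⁻¹) hq
    have h5 : (algebraMap ℚ ℂ) (q 0)⁻¹ * ((q 0 : ℂ) * l) = l := by
      rw [← mul_assoc]
      have h6 : (algebraMap ℚ ℂ) (q 0)⁻¹ * (q 0 : ℂ) = 1 := by
        rw [map_inv₀]
        exact inv_mul_cancel₀ ((map_ne_zero (algebraMap ℚ ℂ)).2 h3)
      rw [h6, one_mul]
    rwa [h5] at h4
  have hstage : Stage EL t (fun _ : Fin 1 => l) 0 = FldEL t := by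
    unfold Stage
    congr 1
    have : {j : Fin 1 | j < 0} = ∅ := by
      ext j
      simp
    rw [this]
    simp
  have hnew : New EL t (fun _ : Fin 1 => l) (fun _ : Fin 1 => Complex.exp l) := by
    intro i
    left
    rw [Subsingleton.elim i 0, hstage]
    exact ⟨h1, rfl⟩
  have h3 := tower_indep ht closed_EL EL_le_ecl hnew hz
  obtain ⟨D, hD1, hD2⟩ := Use.exists_der h3 (Sum.elim 0 1)
  have h4 : ∀ w ∈ FldEL t, D w = 0 := by
    apply Use.kills_adjoin
    rintro x (hx | ⟨j, rfl⟩)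
    · exact hD1 x (EL_le_ecl hx)
    · exact hD2 (Sum.inl j)
  have h5 := Use.kills_alg h4 h2
  have h6 : D (Complex.exp l) = 1 := hD2 (Sum.inr 0)
  rw [h5] at h6
  exact zero_ne_one h6

theorem exp_sum_alg {F : IntermediateField ℚ ℂ} {n : ℕ} {l : Fin n → ℂ}
    (hl : ∀ i, IsAlgebraic F (Complex.exp (l i))) (q : Fin n → ℚ) :
    IsAlgebraic F (Complex.exp (∑ i, (q i : ℂ) * l i)) := Use.exp_sum hl q

theorem sum_alg {F : IntermediateField ℚ ℂ} {n : ℕ} {x : Fin n → ℂ}
    (hx : ∀ i, IsAlgebraic F (x i)) (q : Fin n → ℚ) : IsAlgebraic F (∑ i, (q i : ℂ) * x i) := by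
  have h1 : ∀ s : Finset (Fin n), IsAlgebraic F (∑ i ∈ s, (q i : ℂ) * x i) := by
    classical
    intro s
    induction s using Finset.induction_on with
    | empty => simpa using isAlgebraic_zero
    | insert a s ha ih =>
      rw [Finset.sum_insert ha]
      refine IsAlgebraic.add (IsAlgebraic.mul ?_ (hx a)) ih
      exact isAlgebraic_algebraMap (⟨algebraMap ℚ ℂ (q a), F.algebraMap_mem _⟩ : F)
  exact h1 _

theorem good_of_gen {m : ℕ} {t : Fin m → ℂ} (ht : Generic.Gen ⊥ t) : Good t := by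
  constructor
  · apply Use.algInd_of_der
    intro v
    obtain ⟨D, hD1, hD2⟩ := Use.exists_der (Use.gen_algInd ht) v
    exact ⟨D, fun w hw => hD1 w (EL_le_ecl hw), hD2⟩
  · intro a b x l hx hl hqx hql
    let z : Fin (a + b) → ℂ := Fin.append x l
    let y : Fin (a + b) → ℂ := Fin.append (fun i => Complex.exp (x i)) l
    have hbase : ∀ i : Fin (a + b), FldEL t ≤ Stage EL t z i := by
      intro i
      apply IntermediateField.adjoin.mono
      intro w hw
      exact Or.inl (Or.inl hw)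
    have hnew : New EL t z y := by
      intro i
      refine Fin.addCases (fun j => ?_) (fun j => ?_) i
      · left
        refine ⟨?_, ?_⟩
        · have h1 : z (Fin.castAdd b j) = x j := Fin.append_left _ _ _
          rw [h1]
          exact Dict.alg_mono (hbase _) (hx j)
        · rw [show z (Fin.castAdd b j) = x j from Fin.append_left _ _ _]
          exact Fin.append_left _ _ _
      · right
        refine ⟨?_, ?_⟩
        · have h1 : z (Fin.natAdd a j) = l j := Fin.append_right _ _ _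
          rw [h1]
          exact Dict.alg_mono (hbase _) (hl j)
        · rw [show z (Fin.natAdd a j) = l j from Fin.append_right _ _ _]
          exact Fin.append_right _ _ _
    have hz : ∀ q : Fin (a + b) → ℚ, ∑ i, (q i : ℂ) * z i ∈ EL → q = 0 := by
      intro q hq
      rw [Fin.sum_univ_add] at hq
      have e1 : ∀ j, z (Fin.castAdd b j) = x j := fun j => Fin.append_left _ _ _
      have e2 : ∀ j, z (Fin.natAdd a j) = l j := fun j => Fin.append_right _ _ _
      simp only [e1, e2] at hq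
      have h1 := sum_alg hx (fun i => q (Fin.castAdd b i))
      have h2 := exp_sum_alg hl (fun i => q (Fin.natAdd a i))
      have h3 : IsAlgebraic (FldEL t) (∑ j, (q (Fin.castAdd b j) : ℂ) * x j +
          ∑ j, (q (Fin.natAdd a j) : ℂ) * l j) := by
        have h4 : (∑ j, (q (Fin.castAdd b j) : ℂ) * x j + ∑ j, (q (Fin.natAdd a j) : ℂ) * l j) ∈
            FldEL t := IntermediateField.subset_adjoin ℚ _ (Or.inl hq)
        exact isAlgebraic_algebraMap (⟨_, h4⟩ : FldEL t)
      have h4 : IsAlgebraic (FldEL t) (∑ j, (q (Fin.natAdd a j) : ℂ) * l j) := by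
        have h5 := h3.sub h1
        rwa [add_sub_cancel_left] at h5
      have h5 := log_not_alg ht h4 h2
      have h6 := hql _ h5
      have h7 := hqx (fun i => q (Fin.castAdd b i)) (by
        have h8 := EL.sub_mem hq h5
        rwa [add_sub_cancel_right] at h8)
      funext i
      refine Fin.addCases (fun j => ?_) (fun j => ?_) i
      · exact congrFun h7 j
      · exact congrFun h6 j
    have h1 := tower_indep ht closed_EL EL_le_ecl hnew hz
    apply Use.algInd_of_der
    intro v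
    obtain ⟨D, hD1, hD2⟩ := Use.exists_der h1 (Sum.elim 0 (Fin.append (fun i => v (Sum.inl i))
      (fun j => v (Sum.inr j))))
    refine ⟨D, ?_, ?_⟩
    · apply Use.kills_adjoin
      rintro w (hw | ⟨j, rfl⟩)
      · exact hD1 w (EL_le_ecl hw)
      · exact hD2 (Sum.inl j)
    · rintro (i | j)
      · have h2 := hD2 (Sum.inr (Fin.castAdd b i))
        simp only [Sum.elim_inr, y, Fin.append_left] at h2
        exact h2
      · have h2 := hD2 (Sum.inr (Fin.natAdd a j))
        simp only [Sum.elim_inr, y, Fin.append_right] at h2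
        exact h2

/-- algebraic elements of `EL` -/
theorem alg_of_EL {m : ℕ} {t : Fin m → ℂ} (ht : AlgebraicIndependent EL t) {w : ℂ} (hw : w ∈ EL)
    (hwt : IsAlgebraic (Fld t) w) : IsAlgebraic ℚ w := by
  by_contra hcon
  have h1 : AlgebraicIndependent ℚ (fun _ : Unit => w) :=
    algebraicIndependent_unique_type_iff.2 hcon
  obtain ⟨D₀, hD₀⟩ := Pool.Agent.H135R2.VS.exists_der h1 (fun _ => (1 : ℂ))
  obtain ⟨D₁, hD₁, hD₁t⟩ := Use.exists_der ht (fun j => D₀ (t j))
  have h2 : ∀ u ∈ Fld t, (D₀ - D₁) u = 0 := by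
    apply Use.kills_adjoin
    rintro _ ⟨j, rfl⟩
    rw [Derivation.sub_apply, hD₁t, sub_self]
  have h3 := Use.kills_alg h2 hwt
  rw [Derivation.sub_apply, hD₁ w hw, sub_zero, hD₀ ()] at h3
  exact one_ne_zero h3

/-- `t` is not good if a coordinate is `e` -/
theorem not_good {m : ℕ} (t : Fin m → ℂ) (j : Fin m) (hj : t j = Complex.exp 1) : ¬ Good t := by
  intro h
  have h1 : Transcendental EL (t j) := h.1.transcendental j
  rw [hj] at h1
  exact h1 (isAlgebraic_algebraMap (⟨_, closed_EL.1 1 (EL.one_mem)⟩ : EL))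

theorem dim_good (m : ℕ) : dimH {t : Fin (m + 1) → ℂ | ¬ Good t} = ((2 * m : ℕ) : ℝ≥0∞) := by
  apply le_antisymm
  · have h1 := Generic.dimH_bad Dict.countable_bot (m + 1)
    refine (dimH_mono ?_).trans h1
    exact fun t ht hg => ht (good_of_gen hg)
  · let P : (Fin (m + 1) → ℂ) →L[ℂ] (Fin m → ℂ) :=
      ContinuousLinearMap.pi (fun j => ContinuousLinearMap.proj j.succ)
    have h1 : (univ : Set (Fin m → ℂ)) ⊆ P '' {t : Fin (m + 1) → ℂ | ¬ Good t} := by
      intro v _
      exact ⟨Fin.cons (Complex.exp 1) v, not_good _ 0 rfl, by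
        funext j
        rfl⟩
    have h2 := Real.dimH_univ_eq_finrank (Fin m → ℂ)
    have h3 : finrank ℝ (Fin m → ℂ) = 2 * m := by
      rw [finrank_real_of_complex, finrank_fintype_fun_eq_card, Fintype.card_fin]
    rw [h3] at h2
    rw [← h2]
    exact (dimH_mono h1).trans (P.lipschitz.dimH_image_le _)

/-- the logarithmic derivative of the exponential as a linear map -/
noncomputable def dl (D : Derivation ℚ ℂ ℂ) : ℂ →ₗ[ℚ] ℂ where
  toFun := dlog D
  map_add' := dlog_add D
  map_smul' := by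
    intro q x
    rw [Rat.smul_def, dlog_rat, RingHom.id_apply, Rat.smul_def]

theorem complement {W P : Submodule ℚ ℂ} [FiniteDimensional ℚ W] {a : ℕ}
    (hfin : finrank ℚ ↥(W ⊓ P) ≤ a) : ∃ (n k : ℕ) (b₀ : Fin n → ℂ) (b₁ : Fin k → ℂ),
      n ≤ a ∧ (∀ i, b₀ i ∈ W ∧ b₀ i ∈ P) ∧ (∀ i, b₁ i ∈ W) ∧ LinearIndependent ℚ b₀ ∧
      (∀ q : Fin k → ℚ, ∑ i, (q i : ℂ) * b₁ i ∈ P → q = 0) ∧
      ∀ f g : ℂ →ₗ[ℚ] ℂ, (∀ i, f (b₀ i) = g (b₀ i)) → (∀ i, f (b₁ i) = g (b₁ i)) →
        ∀ x ∈ W, f x = g x := by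
  let W₀ : Submodule ℚ W := P.comap W.subtype
  obtain ⟨W₁, hc⟩ := W₀.exists_isCompl
  let b₀ := finBasis ℚ W₀
  let b₁ := finBasis ℚ W₁
  refine ⟨finrank ℚ W₀, finrank ℚ W₁, fun i => ((b₀ i : W) : ℂ), fun i => ((b₁ i : W) : ℂ), ?_,
    fun i => ⟨(b₀ i : W).2, (b₀ i).2⟩, fun i => (b₁ i : W).2, ?_, ?_, ?_⟩
  · refine le_trans ?_ hfin
    have h1 : W₀.map W.subtype = W ⊓ P := by
      rw [Submodule.map_comap_subtype]
    rw [← h1, Submodule.finrank_map_subtype_eq]
  · exact (b₀.linearIndependent.map' W₀.subtype (Submodule.ker_subtype _)).map' W.subtype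
        (Submodule.ker_subtype _)
  · intro q hq
    have h2 : (∑ i, q i • b₁ i : W₁) = 0 := by
      have h3 : ((∑ i, q i • b₁ i : W₁) : W) ∈ W₀ := by
        change (((∑ i, q i • b₁ i : W₁) : W) : ℂ) ∈ P
        have h4 : (((∑ i, q i • b₁ i : W₁) : W) : ℂ) = ∑ i, (q i : ℂ) * ((b₁ i : W) : ℂ) := by
          rw [Submodule.coe_sum, Submodule.coe_sum]
          exact Finset.sum_congr rfl (fun i _ => Rat.smul_def _ _)
        rw [h4]
        exact hq
      exact Subtype.ext (Submodule.disjoint_def.1 hc.disjoint _ h3 (∑ i, q i • b₁ i : W₁).2)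
    exact funext (Fintype.linearIndependent_iff.1 b₁.linearIndependent q h2)
  · intro f g h0 h1 x hx
    have e0 : (f ∘ₗ W.subtype) ∘ₗ W₀.subtype = (g ∘ₗ W.subtype) ∘ₗ W₀.subtype := b₀.ext h0
    have e1 : (f ∘ₗ W.subtype) ∘ₗ W₁.subtype = (g ∘ₗ W.subtype) ∘ₗ W₁.subtype := b₁.ext h1
    have hx' : (⟨x, hx⟩ : W) ∈ W₀ ⊔ W₁ := by
      rw [hc.sup_eq_top]
      trivial
    obtain ⟨a, ha, b, hb, hab⟩ := Submodule.mem_sup.1 hx'
    have h2 : x = (a : ℂ) + (b : ℂ) := by
      have := congrArg (Subtype.val) hab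
      exact this.symm
    rw [h2, map_add, map_add]
    congr 1
    · exact LinearMap.congr_fun e0 ⟨a, ha⟩
    · exact LinearMap.congr_fun e1 ⟨b, hb⟩

/-- a derivation with given values -/
theorem exists_der {m : ℕ} {t : Fin m → ℂ} (ht : Good t) {a b : ℕ} (hC : Gelfond a b)
    (W W' : Submodule ℚ ℂ) [FiniteDimensional ℚ W] [FiniteDimensional ℚ W']
    (hW : ∀ x ∈ W, IsAlgebraic (Fld t) x) (hW' : ∀ x ∈ W', IsAlgebraic (Fld t) (Complex.exp x))
    (hfin : finrank ℚ ↥(W ⊓ Alg) ≤ a) (hfin' : finrank ℚ ↥(W' ⊓ Logs) ≤ b)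
    (φ φ' : ℂ →ₗ[ℚ] ℂ) :
    ∃ D : Derivation ℚ ℂ ℂ, (∀ w ∈ Fld t, D w = 0) ∧ (∀ x ∈ W, dl D x = φ x) ∧
      ∀ x ∈ W', D x = φ' x := by
  obtain ⟨n, k, c₀, c₁, hn, hc₀, hc₁, hli, hind, hext⟩ := complement hfin
  obtain ⟨n', k', c₀', c₁', hn', hc₀', hc₁', hli', hind', hext'⟩ := complement hfin'
  have hle : Fld t ≤ FldEL t := IntermediateField.adjoin.mono ℚ _ _ (fun w hw => Or.inr hw)
  have h0 := hC n hn n' hn' c₀ c₀' (fun i => (hc₀ i).2) (fun i => (hc₀' i).2) hli hli'
  obtain ⟨D₀, hD₀⟩ := Pool.Agent.H135R2.VS.exists_der h0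
    (Sum.elim (fun i => Complex.exp (c₀ i) * φ (c₀ i)) (fun j => φ' (c₀' j)))
  have h1 := ht.2 k k' c₁ c₁' (fun i => Dict.alg_mono hle (hW _ (hc₁ i)))
    (fun j => Dict.alg_mono hle (hW' _ (hc₁' j)))
    (fun q hq => hind q (alg_of_EL ht.1 hq (sum_alg (fun i => hW _ (hc₁ i)) q)))
    (fun q hq => hind' q (alg_of_EL ht.1 (closed_EL.1 _ hq)
      (exp_sum_alg (fun i => hW' _ (hc₁' i)) q)))
  obtain ⟨D₂, hD₂, hD₂t⟩ := Use.exists_der ht.1 (fun j => D₀ (t j))
  obtain ⟨D₁, hD₁, hD₁v⟩ := Use.exists_der h1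
    (Sum.elim (fun i => Complex.exp (c₁ i) * (φ (c₁ i) - dl D₀ (c₁ i) + dl D₂ (c₁ i)))
      (fun j => φ' (c₁' j) - D₀ (c₁' j) + D₂ (c₁' j)))
  have hd : ∀ (D : Derivation ℚ ℂ ℂ) (x v : ℂ), D (Complex.exp x) = Complex.exp x * v →
      dl D x = v := by
    intro D x v hv
    change dlog D x = v
    unfold dlog
    rw [hv, mul_div_cancel_left₀ _ (Complex.exp_ne_zero _)]
  have hd0 : ∀ (D : Derivation ℚ ℂ ℂ) (x : ℂ), D (Complex.exp x) = 0 → dl D x = 0 := by
    intro D x hv
    change dlog D x = 0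
    unfold dlog
    rw [hv, zero_div]
  have hdl : ∀ x, dl (D₀ - D₂ + D₁) x = dl D₀ x - dl D₂ x + dl D₁ x := by
    intro x
    change dlog _ x = dlog _ x - dlog _ x + dlog _ x
    unfold dlog
    rw [Derivation.add_apply, Derivation.sub_apply]
    ring
  refine ⟨D₀ - D₂ + D₁, ?_, ?_, ?_⟩
  · apply Use.kills_adjoin
    rintro _ ⟨j, rfl⟩
    rw [Derivation.add_apply, Derivation.sub_apply, hD₂t, sub_self, zero_add]
    exact hD₁ _ (IntermediateField.subset_adjoin ℚ _ (Or.inr ⟨j, rfl⟩))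
  · apply hext
    · intro i
      have hi : Complex.exp (c₀ i) ∈ EL := closed_EL.1 _ (alg_EL (hc₀ i).2)
      rw [hdl, hd D₀ (c₀ i) (φ (c₀ i)) (hD₀ (Sum.inl i)), hd0 D₂ _ (hD₂ _ hi),
        hd0 D₁ _ (hD₁ _ (IntermediateField.subset_adjoin ℚ _ (Or.inl hi))), sub_zero, add_zero]
    · intro i
      rw [hdl, hd D₁ (c₁ i) _ (hD₁v (Sum.inl i))]
      ring
  · apply hext' ((D₀ - D₂ + D₁ : Derivation ℚ ℂ ℂ) : ℂ →ₗ[ℚ] ℂ)
    · intro i
      have hi : c₀' i ∈ EL := logs_EL (hc₀' i).2
      change (D₀ - D₂ + D₁ : Derivation ℚ ℂ ℂ) (c₀' i) = φ' (c₀' i)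
      have e1 : D₀ (c₀' i) = φ' (c₀' i) := hD₀ (Sum.inr i)
      rw [Derivation.add_apply, Derivation.sub_apply, e1, hD₂ _ hi,
        hD₁ _ (IntermediateField.subset_adjoin ℚ _ (Or.inl hi)), sub_zero, add_zero]
    · intro i
      change (D₀ - D₂ + D₁ : Derivation ℚ ℂ ℂ) (c₁' i) = φ' (c₁' i)
      have e1 : D₁ (c₁' i) = φ' (c₁' i) - D₀ (c₁' i) + D₂ (c₁' i) := hD₁v (Sum.inr i)
      rw [Derivation.add_apply, Derivation.sub_apply, e1]
      ring

theorem over_of {m : ℕ} {t : Fin m → ℂ} (ht : Good t) {a b : ℕ} (hC : Gelfond a b) :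
    GelfondOver t a b := by
  intro n k x l hx hl hxi hli hfin hfin'
  have hf1 : FiniteDimensional ℚ (Submodule.span ℚ (range x)) :=
    FiniteDimensional.span_of_finite ℚ (finite_range x)
  have hf2 : FiniteDimensional ℚ (Submodule.span ℚ (range l)) :=
    FiniteDimensional.span_of_finite ℚ (finite_range l)
  have hW : ∀ w ∈ Submodule.span ℚ (range x), IsAlgebraic (Fld t) w := by
    intro w hw
    obtain ⟨q, rfl⟩ := (Submodule.mem_span_range_iff_exists_fun ℚ).1 hw
    have := sum_alg hx q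
    simpa only [Rat.smul_def] using this
  have hW' : ∀ w ∈ Submodule.span ℚ (range l), IsAlgebraic (Fld t) (Complex.exp w) := by
    intro w hw
    obtain ⟨q, rfl⟩ := (Submodule.mem_span_range_iff_exists_fun ℚ).1 hw
    have := exp_sum_alg hl q
    simpa only [Rat.smul_def] using this
  apply Use.algInd_of_der
  intro v
  obtain ⟨φ, hφ⟩ := LinearMap.exists_extend
    ((Basis.span hxi).constr ℚ (fun i => v (Sum.inl i) / Complex.exp (x i)))
  obtain ⟨φ', hφ'⟩ := LinearMap.exists_extend ((Basis.span hli).constr ℚ (fun j => v (Sum.inr j)))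
  obtain ⟨D, hD1, hD2, hD3⟩ := exists_der ht hC _ _ hW hW' hfin hfin' φ φ'
  refine ⟨D, hD1, ?_⟩
  rintro (i | j)
  · have h1 := hD2 (x i) (Submodule.subset_span ⟨i, rfl⟩)
    have h2 := LinearMap.congr_fun hφ (Basis.span hxi i)
    rw [Basis.constr_basis] at h2
    have h3 : φ (x i) = v (Sum.inl i) / Complex.exp (x i) := by
      rw [← h2]
      change φ (x i) = φ ((Basis.span hxi i : Submodule.span ℚ (range x)) : ℂ)
      rw [Basis.span_apply]
    change D (Complex.exp (x i)) = v (Sum.inl i)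
    rw [h3] at h1
    rw [Dict.dlog_eq]
    change Complex.exp (x i) * dl D (x i) = _
    rw [h1, mul_div_cancel₀ _ (Complex.exp_ne_zero _)]
  · have h1 := hD3 (l j) (Submodule.subset_span ⟨j, rfl⟩)
    have h2 := LinearMap.congr_fun hφ' (Basis.span hli j)
    rw [Basis.constr_basis] at h2
    change D (l j) = v (Sum.inr j)
    rw [h1, ← h2]
    change φ' (l j) = φ' ((Basis.span hli j : Submodule.span ℚ (range l)) : ℂ)
    rw [Basis.span_apply]

theorem restrict {F : IntermediateField ℚ ℂ} {σ : Type} {l : σ → ℂ}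
    (h : AlgebraicIndependent F l) : AlgebraicIndependent ℚ l :=
  h.restrictScalars (algebraMap ℚ F).injective

theorem finrank_inf_le {n : ℕ} (x : Fin n → ℂ) (P : Submodule ℚ ℂ) :
    finrank ℚ ↥(Submodule.span ℚ (range x) ⊓ P) ≤ n := by
  have hWfin : FiniteDimensional ℚ (Submodule.span ℚ (range x)) :=
    FiniteDimensional.span_of_finite ℚ (finite_range x)
  refine le_trans (Submodule.finrank_mono inf_le_left) ?_
  refine le_trans (finrank_range_le_card x) ?_
  rw [Fintype.card_fin]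

theorem of_over {m : ℕ} {t : Fin m → ℂ} {a b : ℕ} (hC : GelfondOver t a b) : Gelfond a b := by
  intro n hn k hk x l hx hl hxi hli
  apply restrict
  exact hC n k x l (fun i => (show IsAlgebraic ℚ (x i) from hx i).tower_top _)
    (fun j => (show IsAlgebraic ℚ (Complex.exp (l j)) from hl j).tower_top _) hxi hli
    ((finrank_inf_le x Alg).trans hn) ((finrank_inf_le l Logs).trans hk)

/-- the theorem of Lindemann and Weierstrass -/
theorem gelfond_zero (a : ℕ) : Gelfond a 0 := by
  intro n _ k hk x l hx _ hxi _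
  obtain rfl : k = 0 := by omega
  have h1 := Pool.Agent.H327R2.SC.lw_algInd x hx hxi
  have h2 : numbers x l = (fun i => Complex.exp (x i)) ∘ (Equiv.sumEmpty (Fin n) (Fin 0)) := by
    funext s
    rcases s with i | j
    · rfl
    · exact j.elim0
  rw [h2]
  exact h1.comp _ (Equiv.injective _)

/-- the full conjecture gives all its parts -/
theorem gelfond_of_full
    (h : ∀ (n : ℕ) (x l : Fin n → ℂ), (∀ i, IsAlgebraic ℚ (x i)) →
      (∀ j, IsAlgebraic ℚ (Complex.exp (l j))) → LinearIndependent ℚ x → LinearIndependent ℚ l →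
      AlgebraicIndependent ℚ (numbers x l)) (a b : ℕ) : Gelfond a b := by
  intro n _ k _ x l hx hl hxi hli
  obtain ⟨x', hx', hxi'⟩ := Low.exists_algs x hxi k
  obtain ⟨l', hl', hli'⟩ := Logs.exists_logs l hli n
  let e1 : Fin (n + k) ≃ Fin n ⊕ Fin k := finSumFinEquiv.symm
  let e2 : Fin (n + k) ≃ Fin k ⊕ Fin n := finSumFinEquiv.symm.trans (Equiv.sumComm _ _)
  have h1 := h (n + k) (Sum.elim x x' ∘ e1) (Sum.elim l l' ∘ e2) (by
    intro i
    change IsAlgebraic ℚ (Sum.elim x x' (e1 i))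
    rcases e1 i with j | j
    · exact hx j
    · exact hx' j) (by
    intro i
    change IsAlgebraic ℚ (Complex.exp (Sum.elim l l' (e2 i)))
    rcases e2 i with j | j
    · exact hl j
    · exact hl' j) ((linearIndependent_equiv e1).2 hxi') ((linearIndependent_equiv e2).2 hli')
  let f : Fin n ⊕ Fin k → Fin (n + k) ⊕ Fin (n + k) :=
    Sum.map (fun i => e1.symm (Sum.inl i)) (fun j => e2.symm (Sum.inl j))
  have hf : Function.Injective f := Sum.map_injective.2
    ⟨e1.symm.injective.comp Sum.inl_injective, e2.symm.injective.comp Sum.inl_injective⟩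
  have h2 := h1.comp f hf
  have h3 : numbers (Sum.elim x x' ∘ e1) (Sum.elim l l' ∘ e2) ∘ f = numbers x l := by
    funext s
    rcases s with i | j
    · change Complex.exp (Sum.elim x x' (e1 (e1.symm (Sum.inl i)))) = Complex.exp (x i)
      rw [Equiv.apply_symm_apply]
      rfl
    · change Sum.elim l l' (e2 (e2.symm (Sum.inl j))) = l j
      rw [Equiv.apply_symm_apply]
      rfl
  rw [h3] at h2
  exact h2

/-- **Main result.** (1) For `m ≥ 1` the set of the points `t` of `ℂᵐ` which are not good has Hausdorff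
dimension exactly `2 m - 2`. (2) For `m = 1` it is countable. (3) For every good `t` Gel'fond's
conjecture for at most `a` exponentials and at most `b` logarithms is equivalent to Gel'fond's
conjecture over `ℚ(t)` for all families such that the span of the exponents contains at most `a`
independent algebraic numbers and the span of the logarithms contains at most `b` independent
logarithms of algebraic numbers. (4) The latter is true for `b = 0` and all `a`. (5) In particular the
theorem of Lindemann and Weierstrass holds over `ℚ(t)`. (6) For every good `t` the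
conjecture is equivalent to the conjecture over `ℚ(t)`. -/
theorem result :
    (∀ m : ℕ, 1 ≤ m → dimH {t : Fin m → ℂ | ¬ Good t} = ((2 * m - 2 : ℕ) : ℝ≥0∞)) ∧
    {t : Fin 1 → ℂ | ¬ Good t}.Countable ∧
    (∀ (m : ℕ) (t : Fin m → ℂ), Good t → ∀ a b : ℕ, Gelfond a b ↔ GelfondOver t a b) ∧
    (∀ (m : ℕ) (t : Fin m → ℂ), Good t → ∀ a : ℕ, GelfondOver t a 0) ∧
    (∀ (m : ℕ) (t : Fin m → ℂ), Good t → ∀ (n : ℕ) (x : Fin n → ℂ),
      (∀ i, IsAlgebraic (Fld t) (x i)) → LinearIndependent ℚ x →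
      AlgebraicIndependent (Fld t) (fun i => Complex.exp (x i))) ∧
    (∀ (m : ℕ) (t : Fin m → ℂ), Good t →
      ((∀ (n : ℕ) (x l : Fin n → ℂ), (∀ i, IsAlgebraic ℚ (x i)) →
          (∀ j, IsAlgebraic ℚ (Complex.exp (l j))) → LinearIndependent ℚ x →
          LinearIndependent ℚ l → AlgebraicIndependent ℚ (numbers x l)) ↔
        ∀ (n : ℕ) (x l : Fin n → ℂ), (∀ i, IsAlgebraic (Fld t) (x i)) →
          (∀ j, IsAlgebraic (Fld t) (Complex.exp (l j))) → LinearIndependent ℚ x →
          LinearIndependent ℚ l → AlgebraicIndependent (Fld t) (numbers x l))) := by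
  refine ⟨fun m hm => ?_, ?_, fun m t ht a b => ⟨over_of ht, of_over⟩,
    fun m t ht a => over_of ht (gelfond_zero a), fun m t ht n x hx hxi => ?_,
    fun m t ht => ⟨fun h n x l hx hl hxi hli => ?_, fun h n x l hx hl hxi hli => ?_⟩⟩
  · obtain ⟨k, rfl⟩ : ∃ k, m = k + 1 := ⟨m - 1, by omega⟩
    rw [dim_good, show 2 * (k + 1) - 2 = 2 * k by omega]
  · exact (Generic.countable_bad Dict.countable_bot).mono (fun t ht hg => ht (good_of_gen hg))
  · have h1 := over_of ht (gelfond_zero n) n 0 x Fin.elim0 hx (fun j => j.elim0) hxi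
      (linearIndependent_empty_type) (finrank_inf_le x Alg) (finrank_inf_le _ Logs)
    exact h1.comp Sum.inl Sum.inl_injective
  · exact over_of ht (gelfond_of_full h n n) n n x l hx hl hxi hli (finrank_inf_le x Alg)
      (finrank_inf_le l Logs)
  · exact restrict (h n x l (fun i => (hx i).tower_top _) (fun j => (hl j).tower_top _) hxi hli)

end Pool.Agent.Results.MP_c82530_nt.GenericFields
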