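import Pool.Agent.Helper35.GF.Ide

/-!
`MP_c82530_nt` (Gel'fond's conjecture on `exp (α i)` and `log (β j)`): which relations between
exponentials and logarithms of algebraic numbers are compatible with the known theorems.
The definitions are in `Pool/Agent/Helper35/GF/Defs.lean`.
-/

set_option autoImplicit false

namespace Pool.Agent.Results.MP_c82530_nt.PrescribedRelations

open Pool.Agent.Helper35.GF

theorem result {n m : ℕ} (α : Fin n → ℂ) (b : Fin m → ℂ) (hα : ∀ i, IsAlgebraic ℚ (α i))
    (hαi : LinearIndependent ℚ α) (hb : ∀ j, IsAlgebraic ℚ (Complex.exp (b j)))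
    (hbi : LinearIndependent ℚ b) :
    -- necessary conditions for a point `(x, l)` of a field
    (∀ (x : Fin n → ℂ) (l : Fin m → ℂ) (F : ExpField), Point F α b x l →
      (LindemannWeierstrass F → AlgebraicIndependent ℚ x) ∧
      (Baker F → IndepWithOne l) ∧
      (StrongSixExponentials F → SixAt l) ∧
      (LogIndependence F → AlgebraicIndependent ℚ l)) ∧
    -- they are sufficient, and there is a field without further relations
    (∀ (x : Fin n → ℂ) (l : Fin m → ℂ), AlgebraicIndependent ℚ x → IndepWithOne l →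
      ∃ F : ExpField, Point F α b x l ∧ LindemannWeierstrass F ∧ Baker F ∧
        (SixAt l → StrongSixExponentials F) ∧
        (AlgebraicIndependent ℚ l → LogIndependence F) ∧ Generated F α x l) ∧
    -- the ideals of relations which are possible if both halves of the conjecture hold
    (∀ P : Ideal (MvPolynomial (Fin n ⊕ Fin m) Qbar),
      (∃ (F : ExpField) (x : Fin n → ℂ) (l : Fin m → ℂ), Point F α b x l ∧
        LindemannWeierstrass F ∧ LogIndependence F ∧ Relations x l P) ↔ P.IsPrime ∧ Mixed P) ∧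
    -- one irreducible relation
    (∀ f : MvPolynomial (Fin n ⊕ Fin m) Qbar, Irreducible f → (∃ i, Sum.inl i ∈ f.vars) →
      (∃ j, Sum.inr j ∈ f.vars) →
      ∃ (F : ExpField) (x : Fin n → ℂ) (l : Fin m → ℂ), Point F α b x l ∧
        LindemannWeierstrass F ∧ Baker F ∧ StrongSixExponentials F ∧ LogIndependence F ∧
        Relations x l (Ideal.span {f}) ∧ Generated F α x l) := by
  have hnec : ∀ (x : Fin n → ℂ) (l : Fin m → ℂ) (F : ExpField), Point F α b x l →
      (LindemannWeierstrass F → AlgebraicIndependent ℚ x) ∧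
      (Baker F → IndepWithOne l) ∧
      (StrongSixExponentials F → SixAt l) ∧
      (LogIndependence F → AlgebraicIndependent ℚ l) := fun x l F hF => by
    obtain ⟨h1, h2, h3⟩ := point_nec hα hαi hb F hF
    refine ⟨h1, h2, h3, fun h => h m l (fun j => ⟨hF.mem j, ?_⟩) hF.indep⟩
    rw [hF.logs]; exact hb j
  have hsuf : ∀ (x : Fin n → ℂ) (l : Fin m → ℂ), AlgebraicIndependent ℚ x → IndepWithOne l →
      ∃ F : ExpField, Point F α b x l ∧ LindemannWeierstrass F ∧ Baker F ∧
        (SixAt l → StrongSixExponentials F) ∧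
        (AlgebraicIndependent ℚ l → LogIndependence F) ∧ Generated F α x l := fun x l hx hl => by
    obtain ⟨F, h1, h2, h3, h4, h5⟩ := point_suf hα hαi hb hbi hx hl
    exact ⟨F, h4, h1, h2, h3, fun h => log_of_generated hαi h4 h h5, h5⟩
  have hide : ∀ (P : Ideal (MvPolynomial (Fin n ⊕ Fin m) Qbar)), P.IsPrime → Mixed P →
      ∃ (F : ExpField) (x : Fin n → ℂ) (l : Fin m → ℂ), Point F α b x l ∧
        LindemannWeierstrass F ∧ Baker F ∧ StrongSixExponentials F ∧ LogIndependence F ∧
        Relations x l P ∧ Generated F α x l := fun P hP hM => by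
    obtain ⟨x, l, h⟩ := exists_relations P hP
    obtain ⟨hx, hl⟩ := h.mixed_iff.1 hM
    obtain ⟨F, h1, h2, h3, h4, h5, h6⟩ := hsuf x l hx (indepWithOne_of hl)
    exact ⟨F, x, l, h1, h2, h3, h4 (sixAt_of hl), h5 hl, h, h6⟩
  refine ⟨hnec, hsuf, fun P => ⟨?_, fun h => ?_⟩, fun f hf h1 h2 => ?_⟩
  · rintro ⟨F, x, l, h1, h2, h3, h4⟩
    refine ⟨h4.prime, h4.mixed_iff.2 ?_⟩
    obtain ⟨g1, -, -, g4⟩ := hnec x l F h1
    exact ⟨g1 h2, g4 h3⟩
  · obtain ⟨F, x, l, h1, h2, -, -, h5, h6, -⟩ := hide P h.1 h.2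
    exact ⟨F, x, l, h1, h2, h5, h6⟩
  · exact hide _ ((Ideal.span_singleton_prime hf.ne_zero).2 hf.prime) (mixed_of_irreducible h1 h2)

end Pool.Agent.Results.MP_c82530_nt.PrescribedRelations
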