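import Mathlib
import Pool.Agent.Helper78.EC.Tra5
import Pool.Agent.Helper78.EC.Dict

/-!
# Gel'fond's conjecture over generic fields: the relations of bounded degree

Let `K_t` be the algebraic closure of `ℚ(t_1, …, t_m)` in `ℂ`.  A point over a field `K` consists of
`ℚ`-linearly independent elements `x_i` of `K` and `ℚ`-linearly independent numbers `l_j` with
`e^(l_j) ∈ K`; its relations are the polynomials which vanish at the numbers `e^(x_i), l_j`.  For all `t`
outside of a set of Hausdorff dimension exactly `2 m - 2` of `ℂᵐ` (a countable set for `m = 1`) all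
relations with coefficients in `K_t` of the points over `K_t` are combinations of relations with
algebraic coefficients and with the same monomials, and for every `D` the sets of the relations of
degree at most `D` with algebraic coefficients of the points over `K_t` are the same as those of the
points over the algebraic numbers.  Hence every theorem and every conjecture on the relations of bounded
degree holds over `K_t` if and only if it holds over the algebraic numbers: for instance Gel'fond's
conjecture in degree `D`, for every `D`, and, unconditionally, the bound for the number of the logarithms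
which occur in the relations which are linear in the logarithms.
-/

set_option autoImplicit false

namespace Pool.Agent.Results.MP_c82530_nt.RelationSpaces

open Module Set MvPolynomial Pool.Agent.Helper78.SC Pool.Agent.Helper78.EC
open scoped ENNReal

/-- The field of the algebraic numbers. -/
noncomputable abbrev QB : IntermediateField ℚ ℂ := algebraicClosure ℚ ℂ

/-- The field of the numbers which are algebraic over `ℚ(t_1, …, t_m)`. -/
noncomputable def Kt {m : ℕ} (t : Fin m → ℂ) : IntermediateField ℚ ℂ :=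
  (algebraicClosure (IntermediateField.adjoin ℚ (range t)) ℂ).restrictScalars ℚ

/-- A point over `K`: `ℚ`-linearly independent elements `x_i` of `K` and `ℚ`-linearly independent
logarithms `l_j` of elements of `K`. -/
structure Point (K : IntermediateField ℚ ℂ) {a b : ℕ} (x : Fin a → ℂ) (l : Fin b → ℂ) : Prop where
  mem : ∀ i, x i ∈ K
  indep : LinearIndependent ℚ x
  exp_mem : ∀ j, Complex.exp (l j) ∈ K
  log_indep : LinearIndependent ℚ l

/-- The polynomial `P` vanishes at the numbers `e^(x_i), l_j`. -/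
def Rel {K : IntermediateField ℚ ℂ} {a b : ℕ} (x : Fin a → ℂ) (l : Fin b → ℂ)
    (P : MvPolynomial (Fin a ⊕ Fin b) K) : Prop :=
  aeval (Sum.elim (fun i => Complex.exp (x i)) l) P = 0

/-- The set `R` is the set of the relations with algebraic coefficients, of degree at most `D` in each
variable, of a point over `K`. -/
def Occurs (K : IntermediateField ℚ ℂ) (a b D : ℕ) (R : Set (MvPolynomial (Fin a ⊕ Fin b) QB)) :
    Prop :=
  ∃ (x : Fin a → ℂ) (l : Fin b → ℂ), Point K x l ∧
    ∀ P : MvPolynomial (Fin a ⊕ Fin b) QB, P ∈ R ↔ (∀ s, P.degreeOf s ≤ D) ∧ Rel x l P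

/-- Gel'fond's conjecture over `K` for `a` exponentials, `b` logarithms and relations of degree at most
`D` in each variable. -/
def Gelfond (K : IntermediateField ℚ ℂ) (a b D : ℕ) : Prop :=
  ∀ (x : Fin a → ℂ) (l : Fin b → ℂ), Point K x l → ∀ P : MvPolynomial (Fin a ⊕ Fin b) K,
    (∀ s, P.degreeOf s ≤ D) → Rel x l P → P = 0

/-- The monomials of `P` have degree at most `D` in each exponential, and contain no logarithm or one
logarithm, with index outside of `E`, to the first power. -/
def LinearOutside {K : IntermediateField ℚ ℂ} {a b : ℕ} (D : ℕ) (E : Finset (Fin b))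
    (P : MvPolynomial (Fin a ⊕ Fin b) K) : Prop :=
  ∀ u ∈ P.support, (∀ i, u (Sum.inl i) ≤ D) ∧ ((∀ s, u (Sum.inr s) = 0) ∨
    ∃ s, s ∉ E ∧ u (Sum.inr s) = 1 ∧ ∀ s', s' ≠ s → u (Sum.inr s') = 0)

/-- The point `t` is good. -/
structure Good {m : ℕ} (t : Fin m → ℂ) : Prop where
  /-- the relations are defined over the algebraic numbers -/
  defined : ∀ (a b : ℕ) (x : Fin a → ℂ) (l : Fin b → ℂ), Point (Kt t) x l →
    ∀ P : MvPolynomial (Fin a ⊕ Fin b) (Kt t), Rel x l P →
      ∃ (N : ℕ) (κ : Fin N → Kt t) (g : Fin N → MvPolynomial (Fin a ⊕ Fin b) QB),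
        (∀ k, Rel x l (g k)) ∧ (∀ k, (g k).support ⊆ P.support) ∧
        map (algebraMap (Kt t) ℂ) P = ∑ k, C ((κ k : Kt t) : ℂ) * map (algebraMap QB ℂ) (g k)
  /-- the same sets of relations of bounded degree occur over `K_t` and over the algebraic numbers -/
  same : ∀ (a b D : ℕ) (R : Set (MvPolynomial (Fin a ⊕ Fin b) QB)),
    Occurs (Kt t) a b D R ↔ Occurs QB a b D R
  /-- Gel'fond's conjecture in bounded degree -/
  gelfond : ∀ a b D : ℕ, Gelfond (Kt t) a b D ↔ Gelfond QB a b D
  /-- relations which are linear in the logarithms -/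
  linear : ∀ (a b D : ℕ) (x : Fin a → ℂ) (l : Fin b → ℂ), Point (Kt t) x l →
    ∃ E : Finset (Fin b), E.card ≤ (4 * D) ^ a - 2 ^ a ∧
      ∀ P : MvPolynomial (Fin a ⊕ Fin b) (Kt t), LinearOutside D E P → Rel x l P → P = 0

theorem mem_box {a b D : ℕ} {K : Type} [Field K] {P : MvPolynomial (Fin a ⊕ Fin b) K}
    (hP : ∀ s, P.degreeOf s ≤ D) :
    P.support ⊆ Finset.Icc 0 (Finsupp.equivFunOnFinite.symm fun _ => D) := by
  intro u hu
  rw [Finset.mem_Icc]
  refine ⟨zero_le, fun s => ?_⟩
  rw [Finsupp.equivFunOnFinite_symm_apply_apply]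
  exact (degreeOf_le_iff (n := s) (f := P) (d := D)).1 (hP s) u hu

theorem point_QB {m a b : ℕ} (t : Fin m → ℂ) {x : Fin a → ℂ} {l : Fin b → ℂ} (h : Point QB x l) :
    Point (Kt t) x l :=
  ⟨fun i => Disj.QB_le t (h.mem i), h.indep, fun j => Disj.QB_le t (h.exp_mem j), h.log_indep⟩

theorem good_of_gen {m : ℕ} {t : Fin m → ℂ} (ht : Generic.Gen ⊥ t) : Good t where
  defined := fun _ _ x l h P hP => Tra.defined ht x l h.mem h.exp_mem P hP
  same := by
    intro a b D R
    constructor
    · rintro ⟨x, l, h, hR⟩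
      obtain ⟨x', l', h1, h2, h3, h4, h5⟩ := Tra.exact ht x l h.mem h.indep h.exp_mem h.log_indep
        (Finset.Icc 0 (Finsupp.equivFunOnFinite.symm fun _ => D))
      refine ⟨x', l', ⟨h1, h2, h3, h4⟩, fun P => ?_⟩
      rw [hR]
      refine and_congr_right (fun hD => ?_)
      exact h5 P (mem_box hD)
    · rintro ⟨x, l, h, hR⟩
      exact ⟨x, l, point_QB t h, hR⟩
  gelfond := by
    intro a b D
    constructor
    · intro h x l hp P hD hP
      let j : QB →+* Kt t := (IntermediateField.inclusion (Disj.QB_le t)).toRingHom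
      have hj : Function.Injective j := j.injective
      have h1 : map j P = 0 := by
        refine h x l (point_QB t hp) (map j P) (fun s => ?_) ?_
        · rw [degreeOf_le_iff]
          intro u hu
          exact (degreeOf_le_iff (n := s) (f := P) (d := D)).1 (hD s) u
            (support_map_subset _ _ hu)
        · unfold Rel at hP ⊢
          rw [aeval_def, eval₂_map]
          exact hP
      exact map_injective j hj (by rw [h1, map_zero])
    · intro h x l hp P hD hP
      obtain ⟨x', l', h1, h2, h3, h4, h5⟩ := Tra.exact ht x l hp.mem hp.indep hp.exp_mem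
        hp.log_indep (Finset.Icc 0 (Finsupp.equivFunOnFinite.symm fun _ => D))
      obtain ⟨N, κ, g, hg0, hgs, hg⟩ := Tra.defined ht x l hp.mem hp.exp_mem P hP
      have hg1 : ∀ k, g k = 0 := by
        intro k
        have hDk : ∀ s, (g k).degreeOf s ≤ D := by
          intro s
          rw [degreeOf_le_iff]
          intro u hu
          exact (degreeOf_le_iff (n := s) (f := P) (d := D)).1 (hD s) u (hgs k hu)
        exact h x' l' ⟨h1, h2, h3, h4⟩ (g k) hDk ((h5 (g k) (mem_box hDk)).1 (hg0 k))
      apply map_injective (algebraMap (Kt t) ℂ) (algebraMap (Kt t) ℂ).injective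
      rw [map_zero]
      refine hg.trans (Finset.sum_eq_zero (fun k _ => ?_))
      rw [hg1 k, map_zero, mul_zero]
  linear := fun _ _ D x l h => Tra.linear ht D x l h.mem h.indep h.exp_mem h.log_indep

/-- `t` is not good if a coordinate is `log 2` -/
theorem not_good {m : ℕ} (t : Fin m → ℂ) (j : Fin m) (hj : t j = ((Real.log 2 : ℝ) : ℂ)) :
    ¬ Good t := by
  intro h
  have hmem : t j ∈ Kt t := Disj.mem_Kt.2
    (isAlgebraic_algebraMap (⟨t j, IntermediateField.subset_adjoin ℚ _ ⟨j, rfl⟩⟩ :
      IntermediateField.adjoin ℚ (range t)))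
  have hexp : Complex.exp (t j) = 2 := by
    rw [hj, ← Complex.ofReal_exp, Real.exp_log (by norm_num)]
    norm_num
  have hne : t j ≠ 0 := by
    rw [hj]
    exact_mod_cast (Real.log_pos (by norm_num : (1 : ℝ) < 2)).ne'
  let P : MvPolynomial (Fin 1 ⊕ Fin 0) QB := X (Sum.inl 0) - C 2
  have hPD : ∀ s, P.degreeOf s ≤ 1 := by
    intro s
    refine (degreeOf_sub_le _ _ _).trans ?_
    rw [degreeOf_C, degreeOf_X]
    split_ifs <;> simp
  obtain ⟨x, l, hp, hR⟩ := (h.same 1 0 1 {P | (∀ s, P.degreeOf s ≤ 1) ∧
    Rel (fun _ : Fin 1 => t j) (Fin.elim0 : Fin 0 → ℂ) P}).1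
    ⟨fun _ => t j, Fin.elim0, ⟨fun _ => hmem,
      (linearIndependent_unique_iff (v := fun _ : Fin 1 => t j)).2 hne, fun i => i.elim0,
      linearIndependent_empty_type⟩, fun P => Iff.rfl⟩
  have h1 : Rel x l P := by
    refine ((hR P).1 ⟨hPD, ?_⟩).2
    unfold Rel
    rw [map_sub, aeval_X, aeval_C, Sum.elim_inl, hexp, sub_eq_zero]
    rfl
  unfold Rel at h1
  rw [map_sub, aeval_X, aeval_C, Sum.elim_inl, sub_eq_zero] at h1
  refine Pool.Agent.Helper78.EC.Curve.lindemann (l := x 0) ?_ (hp.indep.ne_zero 0) (hp.mem 0)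
  rw [h1]
  exact (2 : QB).2

theorem dim_good (m : ℕ) : dimH {t : Fin (m + 1) → ℂ | ¬ Good t} = ((2 * m : ℕ) : ℝ≥0∞) := by
  apply le_antisymm
  · have h1 := Generic.dimH_bad Dict.countable_bot (m + 1)
    refine (dimH_mono ?_).trans h1
    exact fun t ht hg => ht (good_of_gen hg)
  · let P : (Fin (m + 1) → ℂ) →L[ℂ] (Fin m → ℂ) :=
      ContinuousLinearMap.pi (fun j => ContinuousLinearMap.proj j.succ)
    have h1 : (univ : Set (Fin m → ℂ)) ⊆ P '' {t : Fin (m + 1) → ℂ | ¬ Good t} := by
      intro v _
      exact ⟨Fin.cons ((Real.log 2 : ℝ) : ℂ) v, not_good _ 0 rfl, by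
        funext j
        rfl⟩
    have h2 := Real.dimH_univ_eq_finrank (Fin m → ℂ)
    have h3 : finrank ℝ (Fin m → ℂ) = 2 * m := by
      rw [finrank_real_of_complex, finrank_fintype_fun_eq_card, Fintype.card_fin]
    rw [h3] at h2
    rw [← h2]
    exact (dimH_mono h1).trans (P.lipschitz.dimH_image_le _)

/-- **Main result.** (1) For `m ≥ 1` the set of the points `t` of `ℂᵐ` which are not good has Hausdorff
dimension exactly `2 m - 2`. (2) For `m = 1` it is countable. -/
theorem result :
    (∀ m : ℕ, 1 ≤ m → dimH {t : Fin m → ℂ | ¬ Good t} = ((2 * m - 2 : ℕ) : ℝ≥0∞)) ∧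
    {t : Fin 1 → ℂ | ¬ Good t}.Countable := by
  refine ⟨fun m hm => ?_, ?_⟩
  · obtain ⟨k, rfl⟩ : ∃ k, m = k + 1 := ⟨m - 1, by omega⟩
    rw [dim_good, show 2 * (k + 1) - 2 = 2 * k by omega]
  · exact (Generic.countable_bad Dict.countable_bot).mono (fun t ht hg => ht (good_of_gen hg))

end Pool.Agent.Results.MP_c82530_nt.RelationSpaces
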