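import Pool.Agent.Helper35.GL.Que

/-!
`MP_c82530_nt` (Gel'fond's conjecture on `exp (α i)` and `log (β j)`): the levels of the conjecture.
The definitions are in `Pool/Agent/Helper35/GF/Defs.lean` and `Pool/Agent/Helper35/GL/Def.lean`.
-/

set_option autoImplicit false

namespace Pool.Agent.Results.MP_c82530_nt.SetsOfLevels

open Pool.Agent.Helper35.GF Pool.Agent.Helper35.GL

theorem result :
    -- the levels `(a, 0)` and `(0, b)`
    (∀ F : ExpField, (LindemannWeierstrass F ↔ ∀ a, (a, 0) ∈ levels F) ∧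
      (LogIndependence F ↔ ∀ b, (0, b) ∈ levels F)) ∧
    -- the sets of levels which occur if both halves of the conjecture hold
    (∀ D : Set (ℕ × ℕ),
      (∃ F : ExpField, LindemannWeierstrass F ∧ LogIndependence F ∧ levels F = D) ↔
        IsLowerSet D ∧ (∀ a, (a, 0) ∈ D) ∧ ∀ b, (0, b) ∈ D) ∧
    -- the implications between levels
    (∀ (S : Set (ℕ × ℕ)) (s : ℕ × ℕ), 1 ≤ s.1 → 1 ≤ s.2 →
      ((∀ F : ExpField, LindemannWeierstrass F → LogIndependence F → S ⊆ levels F →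
        s ∈ levels F) ↔ ∃ s' ∈ S, s ≤ s')) ∧
    -- the complex numbers
    (∃ F : ExpField, F.K = ⊤ ∧ F.E = Complex.exp ∧ (Question ↔ levels F = Set.univ)) := by
  refine ⟨fun F => ⟨level_lw F, level_log F⟩, fun D => ⟨?_, fun h =>
    exists_of_lower h.1 h.2.1 h.2.2⟩, fun S s hs1 hs2 => ⟨fun h => ?_, ?_⟩, ?_⟩
  · rintro ⟨F, h1, h2, rfl⟩
    exact ⟨levels_lower F, (level_lw F).1 h1, (level_log F).1 h2⟩
  · by_contra hcon
    push Not at hcon
    obtain ⟨F, h1, h2, h3⟩ := exists_of_lower (D := {t | ¬ s ≤ t})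
      (fun t t' h ht hst => ht (hst.trans h))
      (fun a h0 => absurd h0.2 (by show ¬ s.2 ≤ 0; omega))
      (fun b h0 => absurd h0.1 (by show ¬ s.1 ≤ 0; omega))
    have h4 := h F h1 h2 (by rw [h3]; exact fun t ht => hcon t ht)
    rw [h3] at h4
    exact h4 le_rfl
  · rintro ⟨s', hs', hle⟩ F _ _ hS
    exact levels_lower F hle (hS hs')
  · obtain ⟨F, hK, hE⟩ := complex_expField
    exact ⟨F, hK, hE, question_iff hK hE⟩

end Pool.Agent.Results.MP_c82530_nt.SetsOfLevels
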